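import Mathlib

/-!
# Distance to the cube, exponent 2/3: definitions

`IsAuer n B`: the compact convex symmetric set `B` of `ℝ ^ n` contains the unit vectors and every
determinant of `n` vectors of `B` is at most one in absolute value (the unit vectors are a volume
maximiser of `B`).
`gsum p t = ∑ b, p b • t b (t b)ᵀ`.
-/

namespace Pool.Agent.TT

open Matrix Module

/-- `B` is compact, convex and symmetric, contains the unit vectors, and all determinants of
`n`-tuples of `B` are at most one in absolute value. -/
structure IsAuer (n : ℕ) (B : Set (Fin n → ℝ)) : Prop where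
  compact : IsCompact B
  convex : Convex ℝ B
  symm : ∀ z ∈ B, -z ∈ B
  single : ∀ i : Fin n, (Pi.single i 1 : Fin n → ℝ) ∈ B
  det_le : ∀ t : Fin n → Fin n → ℝ, (∀ i, t i ∈ B) → |(Matrix.of t).det| ≤ 1

/-- The matrix `∑ b, p b • t b (t b)ᵀ`. -/
noncomputable def gsum {n : ℕ} {κ : Type} [Fintype κ] (p : κ → ℝ) (t : κ → Fin n → ℝ) :
    Matrix (Fin n) (Fin n) ℝ :=
  ∑ b, p b • Matrix.vecMulVec (t b) (t b)

end Pool.Agent.TT
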