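import Pool.Agent.Helper88.TT.Defs

/-!
Block TT-5 (by helper68): the gradient inequality of the logarithm of the determinant.
-/

namespace Pool.Agent.TT

open Matrix Module

/-- TT-5: the gradient inequality of `log det`. -/
theorem log_det_le {n : ℕ} {A C : Matrix (Fin n) (Fin n) ℝ} (hA : A.PosDef) (hC : C.PosDef) :
    Real.log A.det ≤ Real.log C.det + (C⁻¹ * (A - C)).trace := by
  open scoped MatrixOrder in
  obtain ⟨R, hR1, hR2⟩ : ∃ R : Matrix (Fin n) (Fin n) ℝ, Rᴴ = R ∧ R * R = C⁻¹ := by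
    have h0 : 0 ≤ C⁻¹ := nonneg_iff_posSemidef.2 hC.inv.posSemidef
    refine ⟨CFC.sqrt C⁻¹, ?_, CFC.sqrt_mul_sqrt_self C⁻¹ h0⟩
    exact (nonneg_iff_posSemidef.1 (CFC.sqrt_nonneg C⁻¹)).isHermitian
  have hCu : IsUnit C := hC.isUnit
  have hCd : 0 < C.det := hC.det_pos
  have hRu : IsUnit R := by
    rw [Matrix.isUnit_iff_isUnit_det]
    have h1 : IsUnit (R * R).det := by
      rw [hR2]
      exact (Matrix.isUnit_iff_isUnit_det _).1 hC.inv.isUnit
    rw [det_mul] at h1
    exact isUnit_of_mul_isUnit_left h1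
  have hM : (R * A * R).PosDef := by
    have := hA.conjTranspose_mul_mul_same (B := R) (mulVec_injective_of_isUnit hRu)
    rwa [hR1] at this
  have hdet : (R * A * R).det = A.det / C.det := by
    have h1 : (R * R).det = (C.det)⁻¹ := by
      rw [hR2, det_nonsing_inv, Ring.inverse_eq_inv']
    rw [det_mul] at h1
    rw [det_mul, det_mul, mul_right_comm, h1, div_eq_inv_mul]
  have htr : (R * A * R).trace = (C⁻¹ * A).trace := by
    rw [trace_mul_cycle, hR2]
  have htr2 : (C⁻¹ * (A - C)).trace = (C⁻¹ * A).trace - n := by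
    rw [mul_sub, trace_sub, nonsing_inv_mul _ ((isUnit_iff_isUnit_det _).1 hCu), trace_one]
    simp
  have hlog : Real.log A.det - Real.log C.det ≤ (R * A * R).trace - n := by
    rw [← Real.log_div hA.det_pos.ne' hCd.ne', ← hdet, hM.isHermitian.det_eq_prod_eigenvalues,
      hM.isHermitian.trace_eq_sum_eigenvalues]
    simp only [RCLike.ofReal_real_eq_id, id_eq]
    rw [Real.log_prod (fun i _ => (hM.eigenvalues_pos i).ne')]
    have h2 : ∑ i, Real.log (hM.isHermitian.eigenvalues i) ≤
        ∑ i, (hM.isHermitian.eigenvalues i - 1) :=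
      Finset.sum_le_sum fun i _ => Real.log_le_sub_one_of_pos (hM.eigenvalues_pos i)
    refine h2.trans_eq ?_
    rw [Finset.sum_sub_distrib]
    simp
  rw [htr2, ← htr]
  linarith

end Pool.Agent.TT
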